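import Pool.Graph.R_pool_sql_team_39128cda.H.MP_44eb6b_gt.C

set_option autoImplicit false

namespace Pool.Agent.KS6_90.TK44.Cof

open Set Function Topology Filter TopologicalSpace Cardinal
open Pool.Agent.H.MP_44eb6b_gt.A Pool.Agent.H.MP_44eb6b_gt.C
open Pool.Agent.H.MP_3bc7a7_gt.A (J cI)

/-- There is a family of at most `ℵ₁` dense open subsets of the Cantor space such that every dense
open subset of the Cantor space includes a member of the family. -/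
def SmallCof : Prop := ∃ 𝒟 : Set (Set (ℕ → Bool)), #𝒟 ≤ aleph 1 ∧
  (∀ D ∈ 𝒟, IsOpen D ∧ Dense D) ∧ ∀ U : Set (ℕ → Bool), IsOpen U → Dense U → ∃ D ∈ 𝒟, D ⊆ U

lemma mkJ : #J = aleph 1 := by simp

lemma idx (h : SmallCof) : ∃ D : J → Set (ℕ → Bool), (∀ ξ, IsOpen (D ξ) ∧ Dense (D ξ)) ∧
    ∀ U, IsOpen U → Dense U → ∃ ξ, D ξ ⊆ U := by
  obtain ⟨𝒟, h1, h2, h3⟩ := h
  obtain ⟨D0, d0, -⟩ := h3 univ isOpen_univ dense_univ
  have : Nonempty 𝒟 := ⟨⟨D0, d0⟩⟩
  rw [← mkJ] at h1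
  obtain ⟨r⟩ := Cardinal.le_def 𝒟 J |>.1 h1
  refine ⟨fun ξ => (invFun r ξ : 𝒟), fun ξ => h2 _ (invFun r ξ).2, fun U u1 u2 => ?_⟩
  obtain ⟨D, d1, d2⟩ := h3 U u1 u2
  refine ⟨r ⟨D, d1⟩, ?_⟩
  simpa [leftInverse_invFun r.injective _] using d2

lemma basB {ι : Type} [Infinite ι] (x : ι → Bool) : NeBot (𝓝[≠] x) :=
  mem_closure_iff_nhdsWithin_neBot.1 (mem_closure_iff.2 fun U u1 u2 => by
    classical
    obtain ⟨u, hu⟩ := bas u1 u2
    obtain ⟨c, hc⟩ := Infinite.exists_notMem_finset u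
    exact ⟨update x c (!x c), hu _ fun d hd => update_of_ne (by rintro rfl; exact hc hd) _ _,
      fun k => by simpa using congrFun k c⟩)

/-- A dominating family indexed by `ω₁`. -/
lemma dom (h : SmallCof) : ∃ f : J → ℕ → ℕ, ∀ g : ℕ → ℕ, ∃ ξ, ∀ n, g n ≤ f ξ n := by
  classical
  obtain ⟨D, h1, h2⟩ := idx h
  have : ∀ x : ℕ → Bool, NeBot (𝓝[≠] x) := basB
  let A : ℕ → Set (ℕ → Bool) := fun n => {x | x n = true ∧ ∀ i < n, x i = false}
  have Ao : ∀ n, IsOpen (A n) := fun n => by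
    simp only [A, ofPred_and, ofPred_forall]
    refine ((isOpen_discrete ({true} : Set Bool)).preimage
      (f := fun x : ℕ → Bool => x n) (by fun_prop)).inter ?_
    have : (⋂ i, ⋂ (_ : i < n), {x : ℕ → Bool | x i = false}) =
        ⋂ i ∈ Finset.range n, {x : ℕ → Bool | x i = false} := by ext; simp
    rw [this]
    exact isOpen_biInter_finset fun i _ => (isOpen_discrete ({false} : Set Bool)).preimage
      (f := fun x : ℕ → Bool => x i) (by fun_prop)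
  have An : ∀ n, (A n).Nonempty := fun n =>
    ⟨fun i => decide (i = n), by simp, fun i hi => by simpa using hi.ne⟩
  let q : ℕ → ℕ → Bool := denseSeq (ℕ → Bool)
  have hq : DenseRange q := denseRange_denseSeq _
  have key : ∀ ξ n, ∃ j, q j ∈ D ξ ∩ A n := fun ξ n => by
    obtain ⟨x, hx⟩ := (h1 ξ).2.inter_open_nonempty _ (Ao n) (An n)
    obtain ⟨j, hj⟩ := hq.exists_mem_open ((h1 ξ).1.inter (Ao n)) ⟨x, hx.2, hx.1⟩
    exact ⟨j, hj⟩
  choose f hf using key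
  refine ⟨f, fun g => ?_⟩
  let F : ℕ → Set (ℕ → Bool) := fun n => q '' Iic (g n)
  have Ff : ∀ n, (F n).Finite := fun n => (finite_Iic _).image _
  obtain ⟨ξ, hξ⟩ := h2 (⋃ n, A n \ F n) (isOpen_iUnion fun n => (Ao n).sdiff (Ff n).isClosed)
    (dense_iff_inter_open.2 fun W w1 ⟨y, hy⟩ => by
      have d1 : Dense (univ \ {(fun _ => false : ℕ → Bool)}) :=
        dense_univ.sdiff_finite (finite_singleton _)
      obtain ⟨x, x1, x2⟩ := d1.inter_open_nonempty _ w1 ⟨y, hy⟩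
      have x3 : ∃ n, x n = true := by
        by_contra! k
        exact x2.2 (funext fun n => by simpa using k n)
      have x4 : x ∈ A (Nat.find x3) := ⟨Nat.find_spec x3, fun i hi => by
        simpa using Nat.find_min x3 hi⟩
      obtain ⟨z, z1, z2⟩ := (dense_univ.sdiff_finite (Ff (Nat.find x3))).inter_open_nonempty _
        (w1.inter (Ao _)) ⟨x, x1, x4⟩
      exact ⟨z, z1.1, mem_iUnion.2 ⟨_, z1.2, z2.2⟩⟩)
  refine ⟨ξ, fun n => ?_⟩
  obtain ⟨m, m1, m2⟩ := mem_iUnion.1 (hξ (hf ξ n).1)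
  have e : m = n := by
    rcases lt_trichotomy m n with l | l | l
    · have := (hf ξ n).2.2 m l
      rw [m1.1] at this; exact absurd this (by simp)
    · exact l
    · have := m1.2 n l
      rw [(hf ξ n).2.1] at this; exact absurd this (by simp)
  subst e
  by_contra! k
  exact m2 ⟨_, k.le, rfl⟩

lemma dcl' : ∃ dc : ℕ × Finset (Finset ℕ) → J → Bool,
    ∀ (s : Finset J) (y : J → Bool), ∃ c, ∀ α ∈ s, dc c α = y α := by
  classical
  obtain ⟨r⟩ : Nonempty (J ↪ (ℕ → Bool)) := Cardinal.le_def J (ℕ → Bool) |>.1 (by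
    rw [mkJ]; simpa using aleph_one_le_continuum)
  have : ∀ p : J × J, ∃ d, r p.1 d = r p.2 d → p.1 = p.2 := fun p => by
    by_contra! k
    exact (k 0).2 (r.injective (funext fun d => (k d).1))
  choose d hd using this
  refine ⟨fun c α => decide ((Finset.range c.1).filter (r α ·) ∈ c.2), fun s y =>
    ⟨((s ×ˢ s).sup d + 1, (s.filter (y ·)).image fun α =>
      (Finset.range ((s ×ˢ s).sup d + 1)).filter (r α ·)), fun α hα => ?_⟩⟩
  rw [Bool.eq_iff_iff, decide_eq_true_iff, Finset.mem_image]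
  refine ⟨fun ⟨β, b1, b2⟩ => ?_, fun k => ⟨α, by simp [hα, k], rfl⟩⟩
  rw [Finset.mem_filter] at b1
  have := Finset.ext_iff.1 b2 (d (β, α))
  have m : d (β, α) < (s ×ˢ s).sup d + 1 :=
    Nat.lt_succ_of_le (Finset.le_sup (f := d) (Finset.mem_product.2 ⟨b1.1, hα⟩))
  simp only [Finset.mem_filter, Finset.mem_range, m, true_and, ← Bool.eq_iff_iff] at this
  exact (show β = α from hd (β, α) this) ▸ b1.2

instance sepK : SeparableSpace K := by
  classical
  obtain ⟨dc, hdc⟩ := dcl'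
  refine ⟨⟨range fun q : Finset ℕ × (ℕ × Finset (Finset ℕ)) =>
    (Sum.elim (fun m => decide (m ∈ q.1)) (dc q.2) : K), countable_range _,
    dense_iff_inter_open.2 fun W w1 ⟨y, hy⟩ => ?_⟩⟩
  obtain ⟨u, hu⟩ := bas w1 hy
  obtain ⟨c, hc⟩ := hdc u.toRight fun α => y (.inr α)
  refine ⟨_, hu _ fun d hd => ?_, ⟨(u.toLeft.filter fun m => y (.inl m)), c⟩, rfl⟩
  obtain m | α := d
  · simp [hd]
  · simpa using hc α (by simpa using hd)

section proj

variable (φ : ∀ δ : J, ℕ ≃ ℕ × low δ)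

/-- Restriction to the coordinates in `low δ`. -/
def pr (δ : J) (b : ℕ → K) (n : ℕ) : Bool := b (φ δ n).1 (φ δ n).2

open Classical in
/-- Overwriting the coordinates in `low δ`. -/
noncomputable def mg (δ : J) (b : ℕ → K) (z : ℕ → Bool) (i : ℕ) : K :=
  fun c => if h : c ∈ low δ then z ((φ δ).symm (i, ⟨c, h⟩)) else b i c

lemma prc (δ : J) : Continuous (pr φ δ) := by unfold pr; fun_prop

lemma mgc (δ : J) (b : ℕ → K) : Continuous (mg φ δ b) := by
  unfold mg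
  refine continuous_pi fun i => continuous_pi fun c => ?_
  by_cases h : c ∈ low δ
  · simp only [h, dite_true]; exact continuous_apply _
  · simp only [h, dite_false]; exact continuous_const

lemma prmg (δ : J) (b : ℕ → K) (z : ℕ → Bool) : pr φ δ (mg φ δ b z) = z := by
  funext n
  simp [pr, mg]

lemma mgpr (δ : J) (b : ℕ → K) : mg φ δ b (pr φ δ b) = b := by
  funext i c
  by_cases h : c ∈ low δ
  · simp [pr, mg, h]
  · simp [mg, h]

lemma pro (δ : J) {U : Set (ℕ → K)} (hU : IsOpen U) : IsOpen (pr φ δ '' U) := by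
  refine isOpen_iff_forall_mem_open.2 ?_
  rintro _ ⟨b, hb, rfl⟩
  exact ⟨mg φ δ b ⁻¹' U, fun z hz => ⟨_, hz, prmg φ δ b z⟩, hU.preimage (mgc φ δ b),
    by rw [mem_preimage, mgpr]; exact hb⟩

lemma prd (δ : J) {D : Set (ℕ → Bool)} (hD : Dense D) : Dense (pr φ δ ⁻¹' D) :=
  dense_iff_inter_open.2 fun W w1 ⟨y, hy⟩ => by
    obtain ⟨z, z1, z2⟩ := hD.inter_open_nonempty _ (w1.preimage (mgc φ δ y))
      ⟨pr φ δ y, by rw [mem_preimage, mgpr]; exact hy⟩
    exact ⟨_, z1, by rw [mem_preimage, prmg]; exact z2⟩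

lemma prs (δ : J) : Surjective (pr φ δ) := fun z => ⟨_, prmg φ δ (fun _ _ => false) z⟩

end proj

lemma supp (e : ℕ → Cn) (C : Set J) (hC : C.Countable) : ∃ δ, (∀ α ∈ C, α < δ) ∧
    ∀ b ∈ UU e, ∀ b' : ℕ → K, (∀ i, ∀ c ∈ low δ, b' i c = b i c) → b' ∈ UU e := by
  obtain ⟨δ, hδ⟩ := bnd (((countable_iUnion fun n => ((e n).1.finite_toSet.image
    Prod.snd).countable).preimage Sum.inr_injective).union hC)
  refine ⟨δ, fun α hα => hδ α (.inr hα), ?_⟩
  rintro b ⟨_, ⟨n, rfl⟩, hn⟩ b' k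
  refine mem_iUnion.2 ⟨n, fun c hc => (k _ _ ?_).trans (hn c hc)⟩
  obtain ⟨i, c | c⟩ := c
  · trivial
  · exact hδ c (.inl (mem_iUnion.2 ⟨n, _, hc, rfl⟩))

/-- `ℵ₁` codes of dense open sets of `ℕ → K` below every dense open set. -/
lemma enum (h : SmallCof) : ∃ en : J → ℕ → Cn, ∀ U : Set (ℕ → K), IsOpen U → Dense U →
    ∃ ξ, UU (en ξ) ⊆ U ∧ Dense (UU (en ξ)) := by
  classical
  obtain ⟨D, h1, h2⟩ := idx h
  have : ∀ δ : J, Nonempty (ℕ ≃ ℕ × low δ) := fun δ => by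
    have := (lowc δ).to_subtype
    have : Nonempty (low δ) := ⟨⟨.inl 0, trivial⟩⟩
    have : Infinite (ℕ × low δ) := inferInstance
    obtain ⟨d⟩ := nonempty_denumerable (ℕ × low δ)
    exact ⟨(Denumerable.eqv (ℕ × low δ)).symm⟩
  let φ : ∀ δ : J, ℕ ≃ ℕ × low δ := fun δ => (this δ).some
  choose en e1 e2 using fun q : J × J => code ((h1 q.1).1.preimage (prc φ q.2)) (prd φ q.2 (h1 q.1).2)
  obtain ⟨r⟩ : Nonempty (J ≃ J × J) := Cardinal.eq.1 (by simp)
  refine ⟨fun ζ => en (r ζ), fun U u1 u2 => ?_⟩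
  obtain ⟨e, k1, k2⟩ := code u1 u2
  obtain ⟨δ, -, hδ⟩ := supp e ∅ countable_empty
  obtain ⟨ξ, hξ⟩ := h2 (pr φ δ '' UU e) (pro φ δ (UUo e))
    ((prs φ δ).denseRange.dense_image (prc φ δ) k2)
  refine ⟨r.symm (ξ, δ), ?_, by simpa using e2 (ξ, δ)⟩
  simp only [Equiv.apply_symm_apply]
  refine (e1 (ξ, δ)).trans (Subset.trans (fun b hb => ?_) k1)
  obtain ⟨b', b1, b2⟩ := hξ hb
  refine hδ b' b1 b fun i c hc => ?_
  have := congrFun b2 ((φ δ).symm (i, ⟨c, hc⟩))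
  simpa [pr] using this.symm

end Pool.Agent.KS6_90.TK44.Cof
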