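import Pool.Agent.KS6_90.TK44.SL

set_option autoImplicit false

namespace Pool.Agent.KS6_90.TK44.Ex

open Set Function Topology Filter TopologicalSpace Cardinal
open Pool.Agent.H.MP_44eb6b_gt.A Pool.Agent.H.MP_44eb6b_gt.C
open Pool.Agent.H.MP_3bc7a7_gt.A (J cI)
open Pool.Agent.KS6_90.TK44.Cof Pool.Agent.KS6_90.TK44.SL

/-- The point with index `β` is put into the set killed at a coordinate. -/
def Kil (e : J → I → ℕ) (f : J → ℕ → ℕ) (z : I → ℕ → Bool) (β : I) (t : I × J × J) : Prop :=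
  (ofLex β).1 < t.2.1 ∧ ∃ n, ((∀ m < n, z β m = z t.1 m) ∧ z β n ≠ z t.1 n) ∧ e t.2.1 β ≤ f t.2.2 n

open Classical in
/-- The colour of the point with index `β` at the coordinate `α`. -/
noncomputable def col (lb : I → Lb) (tk : J → I × J × J) (e : J → I → ℕ) (f : J → ℕ → ℕ)
    (dc : ℕ × Finset (Finset ℕ) → J → Bool) (z : I → ℕ → Bool) (β : I) (α : J) : Bool :=
  if (lb β).2.2 then false else if β = (tk α).1 then true else
    if (ofLex (tk α).1).1 ≤ α ∧ Kil e f z β (tk α) then false else dc (lb β).2.1 α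

lemma colc (lb : I → Lb) (tk : J → I × J × J) (e : J → I → ℕ) (f : J → ℕ → ℕ)
    (dc : ℕ × Finset (Finset ℕ) → J → Bool) {z z' : I → ℕ → Bool} {β : I} {α : J}
    (h1 : z β = z' β) (h2 : (ofLex (tk α).1).1 ≤ α → z (tk α).1 = z' (tk α).1) :
    col lb tk e f dc z β α = col lb tk e f dc z' β α := by
  have : ((ofLex (tk α).1).1 ≤ α ∧ Kil e f z β (tk α)) ↔
      ((ofLex (tk α).1).1 ≤ α ∧ Kil e f z' β (tk α)) :=
    and_congr_right fun k => by unfold Kil; rw [h1, h2 k]
  unfold col
  by_cases k : (ofLex (tk α).1).1 ≤ α ∧ Kil e f z β (tk α)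
  · rw [if_pos k, if_pos (this.1 k)]
  · rw [if_neg k, if_neg (fun l => k (this.2 l))]

open Classical in
/-- The points of the space, from their traces on the generic coordinates. -/
noncomputable def full (lb : I → Lb) (tk : J → I × J × J) (e : J → I → ℕ) (f : J → ℕ → ℕ)
    (dc : ℕ × Finset (Finset ℕ) → J → Bool) (Y : I → K) (γ : I) : K :=
  Sum.elim (fun m => Y γ (.inl m)) fun α => if α < (ofLex γ).1 then Y γ (.inr α) else
    col lb tk e f dc (fun γ m => Y γ (.inl m)) γ α

lemma fullc (lb : I → Lb) (tk : J → I × J × J) (e : J → I → ℕ) (f : J → ℕ → ℕ)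
    (dc : ℕ × Finset (Finset ℕ) → J → Bool) {Y Y' : I → K} {β : I}
    (h : ∀ γ < β, Y γ = Y' γ) {γ : I} (hγ : γ < β) :
    tr (ofLex β).1 (full lb tk e f dc Y γ) = tr (ofLex β).1 (full lb tk e f dc Y' γ) := by
  funext c
  unfold tr
  by_cases hc : c ∈ low (ofLex β).1
  swap
  · simp [hc]
  simp only [hc, if_true]
  obtain m | α := c
  · simp [full, h γ hγ]
  · simp only [full, Sum.elim_inr, h γ hγ]
    by_cases l : α < (ofLex γ).1
    · simp [l]
    · simp only [l, if_false]
      refine colc lb tk e f dc (by simp only [h γ hγ]) fun k => ?_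
      have : (tk α).1 < β := Prod.Lex.lt_iff.2 (.inl (lt_of_le_of_lt k hc))
      simp only [h _ this]

lemma fulll (lb : I → Lb) (tk : J → I × J × J) (e : J → I → ℕ) (f : J → ℕ → ℕ)
    (dc : ℕ × Finset (Finset ℕ) → J → Bool) (Y : I → K) (γ : I) {c : Co}
    (hc : c ∈ low (ofLex γ).1) : full lb tk e f dc Y γ c = Y γ c := by
  obtain m | α := c
  · rfl
  · exact if_pos hc

lemma fullr (lb : I → Lb) (tk : J → I × J × J) (e : J → I → ℕ) (f : J → ℕ → ℕ)
    (dc : ℕ × Finset (Finset ℕ) → J → Bool) (Y : I → K) (γ : I) {α : J}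
    (hc : (ofLex γ).1 ≤ α) : full lb tk e f dc Y γ (.inr α) = col lb tk e f dc
      (fun γ m => full lb tk e f dc Y γ (.inl m)) γ α := if_neg (not_lt.2 hc)

lemma tkx : ∃ tk : J → I × J × J, ∀ t δ, ∃ α, δ ≤ α ∧ tk α = t := by
  obtain ⟨r⟩ : Nonempty (J ≃ (I × J × J) × J) := Cardinal.eq.1 (by
    have : #I = aleph 1 := (mk_congr ofLex).trans (by simp)
    simp [this])
  refine ⟨fun α => (r α).1, fun t δ => ?_⟩
  obtain ⟨_, ⟨η, rfl⟩, hα⟩ : ∃ α ∈ range fun η => r.symm (t, η), δ ≤ α := by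
    by_contra! l
    obtain ⟨η, hη⟩ := bnd (((cI δ).mono fun α k => (l α k).le).preimage
      (f := fun η => r.symm (t, η)) fun _ _ k => by simpa using k)
    exact (hη η ⟨η, rfl⟩).false
  exact ⟨_, hα, by simp⟩

lemma blc (δ : J) : {γ : I | (ofLex γ).1 < δ}.Countable := by
  refine (((cI δ).prod (countable_univ (α := ℕ))).image toLex).mono fun γ hγ => ?_
  exact ⟨ofLex γ, ⟨mem_Iic.2 (show (ofLex γ).1 < δ from hγ).le, trivial⟩, rfl⟩

lemma ci (β : I) : (Iio β).Countable := by
  refine (((cI (ofLex β).1).prod (countable_univ (α := ℕ))).image toLex).mono fun γ hγ => ?_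
  exact ⟨ofLex γ, ⟨(Prod.Lex.lt_iff.1 hγ).elim le_of_lt fun k => k.1.le, trivial⟩, rfl⟩

lemma hlx : ∃ lab : J → ℕ → Lb, ∀ δ, ∀ l : Lb, ↑l.1.1 ⊆ low δ → ↑l.1.2 ⊆ low δ →
    {n | lab δ n = l}.Infinite := by
  classical
  have hl : ∀ δ, ∃ f : ℕ → Lb, ∀ l : Lb, ↑l.1.1 ⊆ low δ → ↑l.1.2 ⊆ low δ →
      {n | f n = l}.Infinite := by
    intro δ
    have := (lowc δ).to_subtype
    obtain ⟨f, hf⟩ := exists_surjective_nat (((Finset (low δ) × Finset (low δ)) ×
      (ℕ × Finset (Finset ℕ)) × Bool) × ℕ)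
    refine ⟨fun n => (((f n).1.1.1.map (.subtype _), (f n).1.1.2.map (.subtype _)), (f n).1.2),
      fun l l1 l2 => Infinite.of_image (fun n => (f n).2) (infinite_univ.mono fun m _ => ?_)⟩
    obtain ⟨n, hn⟩ := hf (((l.1.1.subtype _, l.1.2.subtype _), l.2), m)
    refine ⟨n, ?_, by simp [hn]⟩
    simp only [mem_ofPred_eq, hn]
    rw [Finset.subtype_map_of_mem l1, Finset.subtype_map_of_mem l2]
  choose lab hl using hl
  exact ⟨lab, hl⟩

theorem exX' (h : SmallCof) : ∃ X : Set K,
    (∀ C : Set K, C.Countable → ∃ E ⊆ X \ C, E.Countable ∧ Dense E) ∧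
    (∀ k, ∀ U : Set (ℕ → K), IsOpen U → Dense U → Cyl (Iio k) U →
      ∃ C : Set K, C.Countable ∧ ∀ b, Gen X (Iio k) C b → b ∈ U) ∧
    (∀ p : ℕ → K, (∀ n, p n ∈ X) → CC p → {α | p 0 (.inr α) = true}.Countable ∨
      ∃ α, p 0 (.inr α) = true ∧ ∀ n, p (n + 1) (.inr α) = false) ∧
    ∀ α, ∃ p : ℕ → K, (∀ n, p n ∈ X) ∧ CC p ∧ p 0 (.inr α) = true ∧ Tendsto p atTop (𝓝 (p 0)) := by
  classical
  obtain ⟨en, hen⟩ := enum h
  obtain ⟨fd, hfd⟩ := dom h
  obtain ⟨tk, htk⟩ := tkx
  obtain ⟨dc, hdc⟩ := dcl'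
  obtain ⟨lab, hl⟩ := hlx
  choose e he using fun δ => countable_iff_exists_injOn.1 (blc δ)
  let lb : I → Lb := fun γ => lab (ofLex γ).1 (ofLex γ).2
  choose st s1 s2 s3 using stage
  let P : I → (I → K) → Set K := fun β Y =>
    (fun γ => tr (ofLex β).1 (full lb tk e fd dc Y γ)) '' Iio β
  let g : I → (I → K) → K := fun β Y => st (Fam en (ofLex β).1 (P β Y)) (ofLex β).1 (lb β).1.1
    (fun c => decide (c ∈ (lb β).1.2)) (fun _ => false)
  let y : I → K := wellFounded_lt.fix fun β ih =>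
    g β fun γ => if h : γ < β then ih γ h else fun _ => false
  have hy : ∀ β, y β = g β y := fun β => by
    have h1 : y β = g β fun γ => if γ < β then y γ else fun _ => false := by
      refine (wellFounded_lt.fix_eq _ β).trans ?_
      congr 1
    rw [h1]
    simp only [g]
    congr 2
    exact image_congr fun γ hγ => fullc lb tk e fd dc (fun γ' h' => if_pos h') hγ
  let x : I → K := full lb tk e fd dc y
  have xy : ∀ β, ∀ c ∈ low (ofLex β).1, x β c = y β c := fun β c hc => fulll lb tk e fd dc y β hc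
  have x1 : ∀ β : I, ∀ G ∈ Fam en (ofLex β).1 ((fun γ => tr (ofLex β).1 (x γ)) '' Iio β),
      IsOpen G → Dense G →
      (∀ y ∈ G, ∀ z : K, (∀ c ∈ low (ofLex β).1, z c = y c) → z ∈ G) → x β ∈ G :=
    fun β G g1 g2 g3 g4 => g4 (y β) (by
      rw [hy β]
      exact s1 _ _ _ _ _ (Famc en (ofLex β).1 ((ci β).image _)) G g1 g2 g3 g4) _ (xy β)
  have x2 : ∀ β, ∀ c ∈ (lb β).1.1, c ∈ low (ofLex β).1 → x β c = decide (c ∈ (lb β).1.2) :=
    fun β c h1 h2 => by
      rw [xy β c h2, hy β]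
      exact s2 _ _ _ _ _ c h1 h2
  have x3 : ∀ β α, (ofLex β).1 ≤ α → x β (.inr α) =
      col lb tk e fd dc (fun γ m => x γ (.inl m)) β α := fun β α hα =>
    fullr lb tk e fd dc y β hα
  have xi : Injective x := by
    have : ∀ β γ, γ < β → x β ≠ x γ := fun β γ l k => x1 β _ (.inr ⟨_, ⟨γ, l, rfl⟩, rfl⟩)
      (isClosed_eq (by fun_prop) continuous_const).isOpen_compl
      (dense_iff_inter_open.2 fun W w1 ⟨y, hy⟩ => by
        obtain ⟨u, hu⟩ := bas w1 hy
        obtain ⟨m, hm⟩ := (u.finite_toSet.preimage Sum.inl_injective.injOn).exists_notMem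
        exact ⟨update y (.inl m) (!x γ (.inl m)), hu _ fun c hc => update_of_ne
          (fun k => hm (by rw [mem_preimage, ← k]; exact hc)) _ _,
          fun k => by
            have := congrFun k m
            simp only [comp_apply, update_self] at this
            rw [tre (c := .inl m) trivial] at this
            simp at this⟩)
      (fun y hy z hz k => hy (funext fun m => (hz (.inl m) trivial).symm.trans (congrFun k m)))
      (by
        rw [k]
        exact funext fun m => (tre (c := .inl m) trivial).symm)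
    exact fun β γ k => by_contra fun l =>
      (lt_or_gt_of_ne l).elim (fun m => this _ _ m k.symm) fun m => this _ _ m k
  have blk : ∀ δ, Dense (range fun n : ℕ => x (toLex (δ, n))) := fun δ =>
    dense_iff_inter_open.2 fun W w1 ⟨y, hy⟩ => by
      obtain ⟨u, hu⟩ := bas w1 hy
      let s := u.toRight
      obtain ⟨c, hc⟩ := hdc s fun α => y (.inr α)
      let z : J → ℕ → Bool := fun α m => x (tk α).1 (.inl m)
      obtain ⟨f, hf⟩ := Countable.exists_injective_nat s
      let m : s → ℕ := fun α => u.toLeft.sup id + 1 + f α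
      have mi : Injective m := fun a b k => hf (Nat.add_left_cancel k)
      let y' : K := extend (fun α => Sum.inl (m α)) (fun α => !z α (m α)) y
      let u' : Finset Co := u.filter (· ∈ low δ) ∪ Finset.univ.image fun α => .inl (m α)
      have ul : ↑u' ⊆ low δ := fun c hc => by
        simp only [u', Finset.coe_union, mem_union, Finset.mem_coe, Finset.mem_filter,
          Finset.mem_image] at hc
        rcases hc with k | ⟨α, -, rfl⟩
        exacts [k.2, trivial]
      have bad : ∀ α : s, ({n : ℕ | toLex (δ, n) = (tk α).1} ∪ {n : ℕ | δ < (tk α).2.1 ∧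
          ∃ k ≤ m α, e (tk α).2.1 (toLex (δ, n)) ≤ fd (tk α).2.2 k}).Finite := fun α => by
        refine Finite.union (Set.Subsingleton.finite fun a ha b hb => ?_) ?_
        · have : toLex (δ, a) = toLex (δ, b) := ha.trans hb.symm
          simpa using this
        · by_cases l : δ < (tk α).2.1
          swap
          · simp [l]
          have : InjOn (fun n : ℕ => e (tk α).2.1 (toLex (δ, n))) univ := fun a _ b _ k => by
            have := he (tk α).2.1 (show toLex (δ, a) ∈ _ from l) (show toLex (δ, b) ∈ _ from l) k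
            simpa using this
          refine ((finite_Iic ((Finset.range (m α + 1)).sup (fd (tk α).2.2))).preimage
            (this.mono (subset_univ _))).subset ?_
          rintro n ⟨-, k, k1, k2⟩
          exact k2.trans (Finset.le_sup (f := fd (tk α).2.2) (Finset.mem_range.2 (by omega)))
      obtain ⟨n, n1, n2⟩ := (hl δ ((u', u'.filter (y' ·)), c, false) ul
        ((Finset.coe_subset.2 (Finset.filter_subset _ _)).trans ul)).exists_notMem_finite
        (finite_iUnion bad)
      have n3 : lb (toLex (δ, n)) = ((u', u'.filter (y' ·)), c, false) := n1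
      refine ⟨x (toLex (δ, n)), hu _ fun d hd => ?_, n, rfl⟩
      by_cases l : d ∈ low δ
      · have l1 : d ∈ u' := by simp [u', hd, l]
        rw [x2 (toLex (δ, n)) d (by rw [n3]; exact l1) l, n3]
        simp only [Finset.mem_filter, l1, true_and, Bool.decide_eq_true, y']
        refine extend_apply' _ _ _ ?_
        rintro ⟨α, rfl⟩
        have := Finset.le_sup (f := id) (Finset.mem_toLeft.2 hd)
        simp only [m, id] at this
        omega
      · obtain d | α := d
        · exact (l trivial).elim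
        have l1 : α ∈ s := Finset.mem_toRight.2 hd
        rw [x3 (toLex (δ, n)) α (not_lt.1 l), ← hc α l1]
        have n4 : n ∉ {n : ℕ | toLex (δ, n) = (tk α).1} ∪ {n : ℕ | δ < (tk α).2.1 ∧
          ∃ k ≤ m ⟨α, l1⟩, e (tk α).2.1 (toLex (δ, n)) ≤ fd (tk α).2.2 k} := fun k =>
            n2 (mem_iUnion.2 ⟨⟨α, l1⟩, k⟩)
        have l2 : Sum.inl (m ⟨α, l1⟩) ∈ u' := by simp [u']
        have l3 : x (toLex (δ, n)) (.inl (m ⟨α, l1⟩)) = !z α (m ⟨α, l1⟩) := by
          rw [x2 (toLex (δ, n)) (.inl (m ⟨α, l1⟩)) (by rw [n3]; exact l2) (by trivial), n3]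
          simp only [Finset.mem_filter, l2, true_and, Bool.decide_eq_true, y']
          exact Injective.extend_apply (f := fun α => Sum.inl (m α))
            (Sum.inl_injective.comp mi) _ _ _
        have l4 : ¬ ((ofLex (tk α).1).1 ≤ α ∧
            Kil e fd (fun γ m => x γ (.inl m)) (toLex (δ, n)) (tk α)) := by
          rintro ⟨-, k1, k, ⟨k2, k3⟩, k4⟩
          refine n4 (.inr ⟨k1, k, le_of_not_gt fun k5 => ?_, k4⟩)
          have : x (toLex (δ, n)) (.inl (m ⟨α, l1⟩)) = z α (m ⟨α, l1⟩) := k2 _ k5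
          rw [l3] at this
          simp at this
        have l5 : toLex (δ, n) ≠ (tk α).1 := fun k => n4 (.inl k)
        simp only [col, n3, Bool.false_eq_true, if_false, l5, l4]
  have lp : ∀ δ (y : K) (u : Finset Co), ↑u ⊆ low δ → ∃ p ∈ range x, (∀ c ∈ u, p c = y c) ∧
      ∀ α, δ ≤ α → p (.inr α) = false := fun δ y u hu => by
    obtain ⟨n, hn⟩ := (hl δ ((u, u.filter (y ·)), (0, ∅), true) hu
      ((Finset.coe_subset.2 (Finset.filter_subset _ _)).trans hu)).nonempty
    have n3 : lb (toLex (δ, n)) = ((u, u.filter (y ·)), (0, ∅), true) := hn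
    refine ⟨_, ⟨toLex (δ, n), rfl⟩, fun c hc => ?_, fun α hα => ?_⟩
    · rw [x2 (toLex (δ, n)) c (by rw [n3]; exact hc) (hu hc), n3]; simp [hc]
    · rw [x3 (toLex (δ, n)) α hα]; simp [col, n3]
  refine ⟨range x, fun C hC => ?_, fun k => by simpa using SL' hen x1 (Finset.range k),
    fun p p1 p2 => ?_, fun α => ?_⟩
  · obtain ⟨δ, hδ⟩ := bnd ((hC.preimage xi).image fun γ => (ofLex γ).1)
    refine ⟨_, ?_, countable_range _, blk δ⟩
    rintro _ ⟨n, rfl⟩
    exact ⟨⟨_, rfl⟩, fun k => (hδ _ ⟨_, k, rfl⟩).false⟩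
  · choose a ha using p1
    by_cases k : (lb (a 0)).2.2
    · refine .inl ((cI (ofLex (a 0)).1).mono fun α hα => mem_Iic.2 (le_of_not_ge fun l => ?_))
      rw [mem_ofPred_eq, ← ha, x3 _ _ l] at hα
      simp [col, k] at hα
    obtain ⟨δ, hδ⟩ := bnd (countable_range fun n => (ofLex (a n)).1)
    obtain ⟨ξ, hξ⟩ := hfd fun n => e δ (a (n + 1))
    obtain ⟨α, hα, kα⟩ := htk (a 0, δ, ξ) δ
    have hb : ∀ n, (ofLex (a n)).1 < δ := fun n => hδ _ ⟨n, rfl⟩
    refine .inr ⟨α, ?_, fun n => ?_⟩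
    · rw [← ha, x3 _ _ ((hb 0).le.trans hα)]
      simp [col, k, kα]
    · have n1 : a (n + 1) ≠ a 0 := fun l => (p2 n).2 (by rw [← ha, ← ha, l])
      have n2 : (ofLex (tk α).1).1 ≤ α ∧
          Kil e fd (fun γ m => x γ (.inl m)) (a (n + 1)) (tk α) := by
        rw [kα]
        refine ⟨(hb 0).le.trans hα, hb _, n, ⟨fun m hm => ?_, ?_⟩, hξ n⟩
        · simpa only [ha] using (p2 n).1 m hm
        · simpa only [ha] using (p2 n).2
      rw [← ha, x3 _ _ ((hb _).le.trans hα)]
      have n3 : a (n + 1) ≠ (tk α).1 := by rw [kα]; exact n1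
      simp only [col, n3, n2, if_false, and_self, if_true, ite_self]
  · obtain ⟨δ, hδ⟩ := bnd (countable_singleton α)
    obtain ⟨y, y1, y2, y3⟩ := lp δ (fun _ => true) {.inr α} (by simpa [low] using hδ)
    obtain ⟨f, hf⟩ := ((cI δ).mono (Iio_subset_Iic_self (a := δ))).exists_eq_range ⟨α, hδ α rfl⟩
    choose q q1 q2 q3 using fun n => lp δ (update y (.inl n) (!y (.inl n)))
      ((Finset.range (n + 1)).image .inl ∪ (Finset.range n).image fun j => .inr (f j)) (by
        simp only [Finset.coe_union, Finset.coe_image, union_subset_iff, image_subset_iff]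
        exact ⟨fun _ _ => trivial, fun j _ => hf.ge ⟨j, rfl⟩⟩)
    have q4 : ∀ n, ∀ m < n, q n (.inl m) = y (.inl m) := fun n m l => by
      rw [q2 n _ (by simp; omega), update_of_ne (by simpa using l.ne)]
    refine ⟨fun n => n.casesOn y q, fun n => n.casesOn y1 q1, fun n => ⟨q4 n, ?_⟩,
      y2 _ (by simp), (tendsto_add_atTop_iff_nat 1).1 (tendsto_pi_nhds.2 fun c =>
        tendsto_const_nhds.congr' (eventually_atTop.2 ?_))⟩
    · simp [q2 n (.inl n) (by simp)]
    · obtain m | β := c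
      · exact ⟨m + 1, fun n hn => (q4 n m hn).symm⟩
      · rcases lt_or_ge β δ with l | l
        · obtain ⟨j, rfl⟩ := hf.le l
          exact ⟨j + 1, fun n hn => by
            simp [q2 n (.inr (f j)) (by simp; exact ⟨j, hn, rfl⟩)]⟩
        · exact ⟨0, fun n _ => by simp [q3 n β l, y3 β l]⟩

end Pool.Agent.KS6_90.TK44.Ex
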