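import Pool.Agent.KS6_90.TK44.Cof

set_option autoImplicit false

namespace Pool.Agent.KS6_90.TK44.SL

open Set Function Topology Filter TopologicalSpace Cardinal
open Pool.Agent.H.MP_44eb6b_gt.A Pool.Agent.H.MP_44eb6b_gt.C
open Pool.Agent.H.MP_3bc7a7_gt.A (J cI)
open Pool.Agent.KS6_90.TK44.Cof

open Classical in
/-- Truncation of a point to the coordinates in `low δ`. -/
noncomputable def tr (δ : J) (x : K) : K := fun c => if c ∈ low δ then x c else false

lemma tre {δ : J} {x : K} {c : Co} (h : c ∈ low δ) : tr δ x c = x c := if_pos h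

lemma lowm {δ ε : J} (h : δ ≤ ε) {c : Co} (hc : c ∈ low δ) : c ∈ low ε := by
  cases c
  · trivial
  · exact lt_of_lt_of_le hc h

lemma SL' {en : J → ℕ → Cn} (he : ∀ U : Set (ℕ → K), IsOpen U → Dense U →
      ∃ ξ, UU (en ξ) ⊆ U ∧ Dense (UU (en ξ))) {x : I → K}
    (hx : ∀ β : I, ∀ G ∈ Fam en (ofLex β).1 ((fun γ => tr (ofLex β).1 (x γ)) '' Iio β),
      IsOpen G → Dense G →
      (∀ y ∈ G, ∀ z : K, (∀ c ∈ low (ofLex β).1, z c = y c) → z ∈ G) → x β ∈ G) (V : Finset ℕ) :
    ∀ U : Set (ℕ → K), IsOpen U → Dense U → Cyl V U →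
      ∃ C : Set K, C.Countable ∧ ∀ b, Gen (range x) V C b → b ∈ U := by
  classical
  induction V using Finset.strongInduction with | H V ih => ?_
  intro U u1 u2 u3
  rcases V.eq_empty_or_nonempty with rfl | hV
  · exact ⟨∅, countable_empty, fun b _ => u3 _ u2.nonempty.some_mem _ (by simp)⟩
  obtain ⟨ξ, e1, e2⟩ := he U u1 u2
  obtain ⟨δ, hδ, h1⟩ := supp (en ξ) {ξ} (countable_singleton ξ)
  have h2 : ∀ (q : V × Finset (low δ) × Finset (low δ)), ∃ C : Set K, C.Countable ∧
      ∀ b, Gen (range x) (V.erase q.1) C b → ∃ b' ∈ UU (en ξ), (∀ j ∈ V.erase q.1, b' j = b j) ∧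
        ∀ c ∈ q.2.1, b' q.1 c = decide (c ∈ q.2.2) := by
    rintro ⟨i, u, w⟩
    have o : IsOpen (UU (en ξ) ∩ {b | ∀ c ∈ u, b i c = decide (c ∈ w)}) :=
      (UUo _).inter (opn u (fun (c : low δ) (b : ℕ → K) => b i c) _ fun _ => by fun_prop)
    have pc : ∀ a : ℕ → K, Continuous fun z : ℕ → K => (V.erase i).piecewise z a := fun a =>
      continuous_pi fun j => by
        by_cases l : j ∈ V.erase i <;> simp only [Finset.piecewise, l, if_true, if_false] <;> fun_prop
    refine ih _ (Finset.erase_ssubset i.2) {b | ∃ b' ∈ UU (en ξ), (∀ j ∈ V.erase i, b' j = b j) ∧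
        ∀ c ∈ u, b' i c = decide (c ∈ w)} (isOpen_iff_forall_mem_open.2 ?_)
      (dense_iff_inter_open.2 fun W w1 ⟨a, ha⟩ => ?_) ?_
    · rintro b ⟨a, a1, a2, a3⟩
      refine ⟨_, fun z hz => ⟨_, hz.1, fun j hj => Finset.piecewise_eq_of_mem _ _ _ hj, hz.2⟩,
        o.preimage (pc a), ?_⟩
      rw [mem_preimage, show (V.erase i).piecewise b a = a from funext fun j => by
        by_cases l : j ∈ V.erase i <;> simp [l, a2]]
      exact ⟨a1, a3⟩
    · obtain ⟨z, ⟨z1, z2⟩, z3⟩ := e2.inter_open_nonempty _ ((w1.preimage (pc a)).inter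
        (opn u (fun (c : low δ) (b : ℕ → K) => b i c) (fun c => decide (c ∈ w)) fun _ => by fun_prop))
        ⟨update a i fun c => if h : c ∈ low δ then decide (⟨c, h⟩ ∈ w) else false, by
          rw [mem_preimage, show (V.erase i).piecewise _ a = a from funext fun j => by
            by_cases l : j ∈ V.erase i
            · rw [Finset.piecewise_eq_of_mem _ _ _ l, update_of_ne (Finset.ne_of_mem_erase l)]
            · rw [Finset.piecewise_eq_of_notMem _ _ _ l]]
          exact ha, fun c _ => by simp⟩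
      exact ⟨_, z1, z, z3, fun j hj => (Finset.piecewise_eq_of_mem _ _ _ hj).symm, z2⟩
    · rintro b ⟨a, a1, a2, a3⟩ c hc
      exact ⟨a, a1, fun j hj => (a2 j hj).trans (hc j hj).symm, a3⟩
  choose C c1 c2 using h2
  have := (lowc δ).to_subtype
  have := (cI δ).to_subtype
  refine ⟨(⋃ q, C q) ∪ range fun q : Iic δ × ℕ => x (toLex (q.1.1, q.2)),
    (countable_iUnion c1).union (countable_range _), fun b hb => ?_⟩
  have : Nonempty I := ⟨toLex (δ, 0)⟩
  choose! t ht using fun i hi => (hb.2 i hi).1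
  obtain ⟨i, i1, i2⟩ := V.exists_max_image t hV
  have i3 : δ < (ofLex (t i)).1 := not_le.1 fun k => (hb.2 i i1).2
    (.inr ⟨(⟨_, k⟩, (ofLex (t i)).2), ht i i1⟩)
  set ε : J := (ofLex (t i)).1 with hε
  have i4 : ∀ j : V.erase i, tr ε (b j) ∈ (fun γ => tr ε (x γ)) '' Iio (t i) := fun j => by
    obtain ⟨j1, j2⟩ := Finset.mem_erase.1 j.2
    exact ⟨t j, lt_of_le_of_ne (i2 j j2) fun k => j1 (hb.1 j2 i1
      (by rw [← ht j j2, ← ht i i1, k])), by simp only [ht j j2]⟩
  have up : ∀ a ∈ UU (en ξ), (∀ j : V.erase i, a j = tr ε (b j)) → ∀ z, update a i z ∈ UU (en ξ) →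
      z ∈ GG (en ξ) (V.erase i) i fun j => tr ε (b j) := fun a _ a2 z hz =>
    ⟨_, hz, fun j => by rw [update_of_ne (Finset.ne_of_mem_erase j.2), a2], update_self ..⟩
  have su : ∀ y ∈ GG (en ξ) (V.erase i) i fun j => tr ε (b j), ∀ z : K,
      (∀ c ∈ low δ, z c = y c) → z ∈ GG (en ξ) (V.erase i) i fun j => tr ε (b j) := by
    rintro _ ⟨a, a1, a2, rfl⟩ z hz
    refine up a a1 a2 z (h1 a a1 _ fun j c hc => ?_)
    by_cases l : j = i
    · rw [l, update_self, hz c hc]
    · rw [update_of_ne l]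
  obtain ⟨a, a1, a2, a3⟩ := hx (t i) (GG (en ξ) (V.erase i) i fun j => tr ε (b j))
    (.inl ⟨(⟨V.erase i, fun j => ⟨tr ε (b j), i4 j⟩⟩, i, ⟨ξ, ((hδ ξ rfl).trans i3).le⟩), rfl⟩)
    (isOpen_iff_forall_mem_open.2 (by
      rintro _ ⟨a, a1, a2, rfl⟩
      exact ⟨update a i ⁻¹' UU (en ξ), up a a1 a2,
        (UUo _).preimage (continuous_const.update i continuous_id), by simpa using a1⟩))
    (dense_iff_inter_open.2 fun W w1 ⟨y, hy⟩ => by
      obtain ⟨u, hu⟩ := bas w1 hy
      obtain ⟨a, a1, a2, a3⟩ := c2 (⟨i, i1⟩, u.subtype (· ∈ low δ),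
        (u.subtype (· ∈ low δ)).filter fun c => y c) b
        ⟨hb.1.mono (by simp), fun j hj => ⟨(hb.2 j (Finset.mem_of_mem_erase hj)).1, fun k =>
          (hb.2 j (Finset.mem_of_mem_erase hj)).2 (.inl (mem_iUnion.2 ⟨_, k⟩))⟩⟩
      have a1' : (fun j => if j ∈ V.erase i then tr ε (b j) else a j) ∈ UU (en ξ) :=
        h1 a a1 _ fun j c hc => by
          by_cases l : j ∈ V.erase i
          · simp only [l, if_true]
            rw [tre (lowm i3.le hc), a2 j l]
          · simp only [l, if_false]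
      refine ⟨(low δ).piecewise (a i) y, hu _ fun c hc => ?_,
        su _ ⟨_, a1', fun j => if_pos j.2, rfl⟩ _ fun c hc => by simp [hc]⟩
      by_cases l : c ∈ low δ
      · simpa [l, hc] using a3 ⟨c, l⟩ (by simpa using hc)
      · simp [l])
    fun y hy z hz => su y hy z fun c hc => hz c (by
      cases c
      · trivial
      · exact lt_trans hc i3)
  have a4 : (fun j => if j ∈ V then b j else a j) ∈ UU (en ξ) := h1 a a1 _ fun j c hc => by
    by_cases m : j ∈ V
    · simp only [m, if_true]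
      by_cases l : j = i
      · rw [l, a3, ht i i1]
      · exact ((congrFun (a2 ⟨j, Finset.mem_erase.2 ⟨l, m⟩⟩) c).trans (tre (lowm i3.le hc))).symm
    · simp only [m, if_false]
  exact u3 _ (e1 a4) b fun j hj => (if_pos hj).symm

end Pool.Agent.KS6_90.TK44.SL
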